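import Pool.Agent.Helper88.TA.Goals
import Pool.Agent.Helper73.GM.KB

/-! # TA, packet KG: for most integers of an interval there is a window in which all primes are avoided -/

set_option autoImplicit false

open Finset Filter Topology

open scoped Classical

namespace Pool.Agent.Helper11.TA

open Pool.Agent.Helper88
open Pool.Agent.Helper88.PP (pr Rg om Sf SS uu vv ee LA VV QQ cost nc dd)
open Pool.Agent.Helper88.RR (gg ab TB WB nz wb DB Db VM GB)
open Pool.Agent.Helper88.GM (NI XI In gB Sr)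
open Pool.Agent.Helper88.TA (StmtV4 StmtKG)
open Pool.Agent.Helper73.GM (params sizes card_bound up_bound sig_bound V_bound)

/-- the second moment method for squares of weights, with a bound for the fourth moments -/
theorem class_bound4 {N J : Finset ℕ} {W G : ℕ → ℕ → ℝ} {D : ℕ → ℝ} {X K ε : ℝ}
    (hJ : J.Nonempty) (hX : 0 ≤ X) (hε0 : 0 ≤ ε) (hK : 0 ≤ K)
    (hN : (N.card : ℝ) ≤ (1 + ε) * X)
    (hD : ∀ j ∈ J, 1 ≤ D j)
    (hG0 : ∀ j ∈ J, ∀ n ∈ N, 0 ≤ G j n)
    (h1 : ∀ j ∈ J, |∑ n ∈ N, W j n ^ 2 - X * D j| ≤ ε * X)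
    (h2 : ∀ j ∈ J, ∑ n ∈ N, G j n ≤ ε * (X * D j))
    (h3 : ∀ j ∈ J, ∀ k ∈ J, j ≠ k →
      ∑ n ∈ N, W j n ^ 2 * W k n ^ 2 ≤ (1 + ε) * (X * (D j * D k)))
    (h4 : ∀ j ∈ J, ∑ n ∈ N, W j n ^ 4 ≤ K * X)
    (S : Finset ℕ) (hS : S ⊆ N) (hSp : ∀ n ∈ S, ∀ j ∈ J, W j n ^ 2 ≤ G j n) :
    (S.card : ℝ) ≤ (18 * ε + 4 * K / J.card) * X := by
  set f : ℕ → ℕ → ℝ := fun j n => W j n ^ 2 / D j with hf
  set g : ℕ → ℕ → ℝ := fun j n => G j n / D j with hg
  have hDpos : ∀ j ∈ J, 0 < D j := fun j hj => lt_of_lt_of_le one_pos (hD j hj)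
  have hsum : ∀ j, ∑ n ∈ N, f j n = (∑ n ∈ N, W j n ^ 2) / D j := fun j => by
    rw [Finset.sum_div]
  have key := Pool.Agent.Helper39.PP.ch N J f g X K ε hJ hX hε0 hK
    ?_ ?_ hN ?_ ?_ ?_ ?_
  · refine le_trans ?_ key
    have hsub : S ⊆ N.filter (fun n => ∀ j ∈ J, f j n ≤ g j n) := by
      intro n hn
      rw [mem_filter]
      refine ⟨hS hn, fun j hj => ?_⟩
      exact div_le_div_of_nonneg_right (hSp n hn j hj) (hDpos j hj).le
    exact_mod_cast Finset.card_le_card hsub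
  · intro j hj n _
    exact div_nonneg (sq_nonneg _) (hDpos j hj).le
  · intro j hj n hn
    exact div_nonneg (hG0 j hj n hn) (hDpos j hj).le
  · intro j hj
    have h5 := (abs_le.1 (h1 j hj)).1
    have h6 : 1 ≤ D j := hD j hj
    rw [hsum, le_div_iff₀ (hDpos j hj)]
    have h8 : ε * X ≤ ε * X * D j := le_mul_of_one_le_right (by positivity) h6
    linarith
  · intro j hj
    have h7 : ∑ n ∈ N, g j n = (∑ n ∈ N, G j n) / D j := by
      rw [Finset.sum_div]
    rw [h7, div_le_iff₀ (hDpos j hj)]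
    have := h2 j hj
    linarith
  · intro j hj
    have h6 : 1 ≤ D j := hD j hj
    have hDj := hDpos j hj
    have h7 : ∑ n ∈ N, f j n ^ 2 ≤ ∑ n ∈ N, W j n ^ 4 := by
      apply Finset.sum_le_sum
      intro n hn
      rw [hf]
      simp only
      rw [div_pow, div_le_iff₀ (by positivity)]
      have h8 : 0 ≤ W j n ^ 4 := by positivity
      have h9 : 1 ≤ D j ^ 2 := one_le_pow₀ h6
      calc (W j n ^ 2) ^ 2 = W j n ^ 4 * 1 := by ring
        _ ≤ W j n ^ 4 * D j ^ 2 := mul_le_mul_of_nonneg_left h9 h8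
    exact h7.trans (h4 j hj)
  · intro j hj k hk hjk
    have hDj := hDpos j hj
    have hDk := hDpos k hk
    have h7 : ∑ n ∈ N, f j n * f k n =
        (∑ n ∈ N, W j n ^ 2 * W k n ^ 2) / (D j * D k) := by
      rw [Finset.sum_div]
      apply Finset.sum_congr rfl
      intro n _
      rw [hf]
      simp only
      rw [div_mul_div_comm]
    rw [h7, div_le_iff₀ (by positivity)]
    have := h3 j hj k hk hjk
    linarith

theorem kg (h1 : GM.StmtS1) (h2 : GM.StmtGT) (h3 : GM.StmtS3) (h5 : GM.StmtTL) (h4 : StmtV4) :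
    StmtKG := by
  obtain ⟨c1, hc1, hVL⟩ := Pool.Agent.Helper88.RR.vl
  obtain ⟨cS, hcS, ES, hS1⟩ := h1
  obtain ⟨cG, hcG, EG, hGT⟩ := h2
  obtain ⟨EU, hSU⟩ := h4
  obtain ⟨cT, hcT, ET, hTL⟩ := h5
  obtain ⟨E1, hE1⟩ := params
  set c : ℝ := min 1 (c1 / 2000) with hc
  have hc0 : 0 < c := lt_min one_pos (by positivity)
  have hcl : c ≤ c1 / 2000 := min_le_right _ _
  have hcone : c ≤ 1 := min_le_left _ _
  clear_value c
  refine ⟨c, hc0, fun ε hε => ?_⟩
  set ε' : ℝ := min 1 (ε / 40) with hε'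
  have hε'0 : 0 < ε' := lt_min one_pos (by positivity)
  have hε'1 : ε' ≤ 1 := min_le_left _ _
  have hε'2 : ε' ≤ ε / 40 := min_le_right _ _
  clear_value ε'
  obtain ⟨E3, hS3⟩ := h3 ε' hε'0
  obtain ⟨E2, hE2⟩ := sizes c cS cG cT (ε' / 2) hc0.le hcS hcG hcT (by positivity)
  obtain ⟨L3, hL3⟩ := exists_nat_gt (max 100 (32 / c1))
  refine ⟨ES + EG + EU + ET + E1 + E2 + E3 + 2 ^ L3 + 300, ?_⟩
  intro E z x y hE hSr u v Q b hIn J P hJc hJz hJd hP hPo
  have hp2 : 0 < 2 ^ L3 := by positivity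
  have hES : ES ≤ E := by omega
  have hEG : EG ≤ E := by omega
  have hEU : EU ≤ E := by omega
  have hET : ET ≤ E := by omega
  have hEE1 : E1 ≤ E := by omega
  have hEE2 : E2 ≤ E := by omega
  have hEE3 : E3 ≤ E := by omega
  have hEL3 : 2 ^ L3 ≤ E := by omega
  have hE300 : 300 ≤ E := by omega
  clear hE
  obtain ⟨m, hm1, hqm, hjqm, hK2⟩ := hE1 E hEE1
  obtain ⟨s1, s2, s3, s4, s5, s6, s7⟩ := hE2 E hEE2
  set L := Nat.log 2 E with hL
  have hE0 : E ≠ 0 := by clear hqm hjqm hK2; omega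
  have hEr : (300 : ℝ) ≤ E := by exact_mod_cast hE300
  have hEpos : (0 : ℝ) < E := by linarith
  have hLL : L3 ≤ L := Nat.le_log_of_pow_le (by norm_num) hEL3
  obtain ⟨hz1, hzE, hx2, hy1, hy2, hll⟩ := id hSr
  have hz2 : 2 ≤ z := by
    have h1 : (2 : ℝ) ≤ z := by
      have := Real.add_one_le_exp (E : ℝ)
      linarith
    exact_mod_cast h1
  obtain ⟨hV1, hVlog⟩ := V_bound hc1 hm1 hz2 hE300 hL hLL hL3 hVL
  set q := 2 ^ (L / 4) with hq
  have hV0 : VV z m (q * m) ≠ 0 := by linarith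
  have hK : (E / 16 / m + 1) ^ 3 ≤ E := by
    refine le_trans (Nat.pow_le_pow_left ?_ 3) hK2
    exact Nat.le_mul_of_pos_left _ (by norm_num)
  have hom := Pool.Agent.Helper88.RR.om_nonneg y z
  have hX : 0 ≤ XI u v Q := div_nonneg (Nat.cast_nonneg _) (Nat.cast_nonneg _)
  -- the number of points
  have hcard : ∀ t ∈ J, (P t).card ≤ y := by
    intro t ht
    have := Finset.card_le_card (hP t ht)
    rw [Nat.card_Icc] at this
    clear hqm hjqm hK2 hK hzE hx2
    omega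
  have hPhalf : ∀ t ∈ J, ((P t).card : ℝ) * om y z ≤ (E : ℝ) ^ 2 / 2 := by
    intro t ht
    refine (hPo t ht).trans ?_
    have h1 : 2 * Real.log E ≤ E := by linarith
    calc c * (E * Real.log E) ≤ 1 * (E * (E / 2)) := by
          apply mul_le_mul hcone _ (by positivity) (by norm_num)
          exact mul_le_mul_of_nonneg_left (by linarith) hEpos.le
      _ = (E : ℝ) ^ 2 / 2 := by ring
  have hPo2 : ∀ t ∈ J, ((P t).card : ℝ) * om y z ≤ (E : ℝ) ^ 2 := by
    intro t ht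
    refine (hPhalf t ht).trans ?_
    have : (0 : ℝ) ≤ (E : ℝ) ^ 2 := by positivity
    linarith
  have hM2 : 2 ≤ E / 16 := by clear hqm hjqm hK2 hK hzE hx2; omega
  -- the nonempty set of windows
  have hJpos : (0 : ℝ) < J.card := lt_of_lt_of_le (Real.exp_pos _) hJc
  have hJne : J.Nonempty := by
    rw [← Finset.card_pos]
    exact_mod_cast hJpos
  have key := class_bound4 (N := NI u v Q b) (J := J)
    (W := fun t n => WB m q (E / 16) z y (P t) n)
    (G := fun t n => ∑ h : P t, GB m q (E / 16) z y (P t) h n ^ 2)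
    (D := fun t => DB m q (E / 16) z y (P t)) (X := XI u v Q)
    (K := Real.exp ((E : ℝ) ^ 2 / 2)) (ε := ε') hJne hX hε'0.le (Real.exp_pos _).le ?_ ?_ ?_
    ?_ ?_ ?_ ?_ ((NI u v Q b).filter (fun n => z ^ (E / 16) ≤ n ∧
      ∀ t ∈ J, ∃ h ∈ P t, (n + h).Prime))
    (Finset.filter_subset _ _) ?_
  · refine key.trans (mul_le_mul_of_nonneg_right ?_ hX)
    have h6 : 4 * Real.exp ((E : ℝ) ^ 2 / 2) / J.card ≤ 8 * Real.exp (-((E : ℝ) ^ 2 / 2)) := by
      rw [div_le_iff₀ hJpos]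
      calc 4 * Real.exp ((E : ℝ) ^ 2 / 2)
          ≤ 8 * Real.exp ((E : ℝ) ^ 2 / 2) := by
            have := Real.exp_pos ((E : ℝ) ^ 2 / 2)
            linarith
        _ = 8 * (Real.exp (-((E : ℝ) ^ 2 / 2)) * Real.exp ((E : ℝ) ^ 2)) := by
            rw [← Real.exp_add]
            rw [show -((E : ℝ) ^ 2 / 2) + (E : ℝ) ^ 2 = (E : ℝ) ^ 2 / 2 by ring]
        _ ≤ 8 * (Real.exp (-((E : ℝ) ^ 2 / 2)) * J.card) := by
            have := mul_le_mul_of_nonneg_left hJc (Real.exp_pos (-((E : ℝ) ^ 2 / 2))).le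
            linarith
        _ = 8 * Real.exp (-((E : ℝ) ^ 2 / 2)) * J.card := by ring
    linarith
  · refine (card_bound hz2 (hTL E z x y hET hSr _ _ Q b hIn)).trans ?_
    exact mul_le_mul_of_nonneg_right (by linarith) hX
  · intro t ht
    exact (hS1 E z x y hES hSr _ _ Q b hIn m q hm1 hqm hV1 hK t (hJz t ht) (P t) (hP t ht)
      (hPo2 t ht)).1
  · intro t ht n hn
    exact Finset.sum_nonneg fun h _ => sq_nonneg _
  · intro t ht
    refine (hS1 E z x y hES hSr _ _ Q b hIn m q hm1 hqm hV1 hK t (hJz t ht) (P t) (hP t ht)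
      (hPo2 t ht)).2.trans ?_
    exact mul_le_mul_of_nonneg_right (by linarith) hX
  · intro t ht
    have hD1 := (hS1 E z x y hES hSr _ _ Q b hIn m q hm1 hqm hV1 hK t (hJz t ht) (P t) (hP t ht)
      (hPo2 t ht)).1
    have hG := hGT E z x y hEG hSr _ _ Q b hIn m q hm1 hqm hV1 hK t (hJz t ht) (P t) (hP t ht)
      (hPo2 t ht)
    have hSig := sig_bound hcl hc1 hE300 hL (hcard t ht) s1 hVlog hV1 hjqm hD1 (hPo t ht)
    rw [Finset.sum_comm]
    refine (Finset.sum_le_sum fun h _ => hG h).trans ?_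
    rw [Finset.sum_const, nsmul_eq_mul, Finset.card_univ, Fintype.card_coe]
    exact up_bound hX hD1 hom (Real.exp_pos _).le hSig (hPo t ht) s3 s4
  · intro t ht t' ht' htt
    rcases Nat.lt_or_gt_of_ne htt with hlt | hlt
    · refine hS3 E z x y hEE3 hSr _ _ Q b hIn m q hm1 hqm hV1 hK2 t t' (hJd t ht t' ht' hlt)
        (hJz t' ht') (P t) (P t') (hP t ht) (hP t' ht') ?_
      rw [add_mul]
      have h6 := hPhalf t ht
      have h7 := hPhalf t' ht'
      linarith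
    · have h8 := hS3 E z x y hEE3 hSr _ _ Q b hIn m q hm1 hqm hV1 hK2 t' t
        (hJd t' ht' t ht hlt) (hJz t ht) (P t') (P t) (hP t' ht') (hP t ht) (by
          rw [add_mul]
          have h6 := hPhalf t ht
          have h7 := hPhalf t' ht'
          linarith)
      have h9 : ∑ n ∈ NI u v Q b, WB m q (E / 16) z y (P t) n ^ 2 *
          WB m q (E / 16) z y (P t') n ^ 2 = ∑ n ∈ NI u v Q b,
          WB m q (E / 16) z y (P t') n ^ 2 * WB m q (E / 16) z y (P t) n ^ 2 :=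
        Finset.sum_congr rfl fun n _ => mul_comm _ _
      rw [h9, mul_comm (DB m q (E / 16) z y (P t))]
      exact h8
  · intro t ht
    exact hSU E z x y hEU hSr u v Q b hIn m q hm1 hqm hV1 hK t (hJz t ht) (P t) (hP t ht)
      (hPo2 t ht)
  · intro n hn t ht
    obtain ⟨hn1, hzn, hn2⟩ := Finset.mem_filter.1 hn
    refine le_trans ?_ (Pool.Agent.Helper88.RR.point Pool.Agent.Helper59.RR.pw m q (E / 16) z y n
      (P t) hM2 hm1 hz2 hV0 hqm hzn)
    obtain ⟨h, hh, hpr⟩ := hn2 t ht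
    have h6 : 1 ≤ ((P t).filter (fun h => (n + h).Prime)).card :=
      Finset.card_pos.2 ⟨h, Finset.mem_filter.2 ⟨hh, hpr⟩⟩
    have h7 : (1 : ℝ) ≤ (((P t).filter (fun h => (n + h).Prime)).card : ℝ) := by exact_mod_cast h6
    exact le_mul_of_one_le_right (sq_nonneg _) h7

end Pool.Agent.Helper11.TA
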